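import Pool.Agent.H47.ST.Targets

namespace Pool.Agent.H15.STK

open Finset Pool.Agent.H47.ST

/-- the weight, if the height on the left is large -/
theorem wt_left {R : ℕ} {W U : ℝ} {e c hl r hr : ℕ} (hc : c % 2 = e) (hl1 : c + 3 ≤ hl)
    (hr1 : hr ≤ c + 2) (h2 : r ≤ c + 1) :
    wt R W U e hl r hr = Real.exp (((R : ℝ) + 1 - (cl e (max hr (r + 1) - 1) : ℕ)) / R) *
      (if hr ≤ r + 1 then W else 1) * (if r % 2 = 1 - e ∧ hr ≤ r then U else 1) := by
  have e1 : Lh e hl r hr = cl e (max hr (r + 1) - 1) := by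
    unfold Lh cl
    split_ifs <;> omega
  have e2 : walker hl r hr ↔ hr ≤ r + 1 := by
    unfold walker
    constructor
    · rintro (h | h)
      · omega
      · exact h
    · exact Or.inr
  have e3 : pend e hl r hr ↔ r % 2 = 1 - e ∧ hr ≤ r := by
    unfold pend
    constructor
    · rintro (h | h)
      · exact h
      · omega
    · exact Or.inl
  unfold wt
  rw [e1, if_congr e2 rfl rfl, if_congr e3 rfl rfl]

theorem top_cons (h1 : T_TOP) (r : ℕ) (B : List ℕ) : top 0 (r :: B) = max (r + 1) (top 0 B) := by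
  show top (max 0 (r + 1)) B = _
  rw [h1.1, Nat.zero_max]

/-- nothing is visible -/
theorem up_high (h1 : T_TOP) (e : ℕ) : ∀ (B : List ℕ) (h : ℕ), top 0 B ≤ h → up e h B = B
  | [], _, _ => rfl
  | r :: B, h, hB => by
    rw [top_cons h1] at hB
    have h2 : ¬ h ≤ r := by omega
    show (if h ≤ r then _ else _) = _
    rw [if_neg h2, up_high h1 e B h (by omega)]

theorem phC_left (h1 : T_TOP) {R : ℕ} {W U : ℝ} {e c : ℕ} (hc : c % 2 = e) :
    ∀ (B : List ℕ) (hl hl' : ℕ), top 0 B ≤ c + 1 → c + 3 ≤ hl → c + 3 ≤ hl' →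
      phC R W U e hl' B 0 = phC R W U e hl B 0
  | [], _, _, _, _, _ => rfl
  | r :: B, hl, hl', hB, h2, h3 => by
    rw [top_cons h1] at hB
    show wt R W U e hl' r (max (top 0 B) 0) * phC R W U e (max hl' (r + 1)) B 0 =
      wt R W U e hl r (max (top 0 B) 0) * phC R W U e (max hl (r + 1)) B 0
    rw [wt_left hc h3 (by omega) (by omega), wt_left hc h2 (by omega) (by omega),
      phC_left h1 hc B (max hl (r + 1)) (max hl' (r + 1)) (by omega) (by omega) (by omega)]

theorem wt_pos (R : ℕ) {W U : ℝ} (hW : 1 ≤ W) (hU : 1 ≤ U) (e hl r hr : ℕ) :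
    0 < wt R W U e hl r hr := by
  unfold wt
  have h1 := Real.exp_pos (((R : ℝ) + 1 - (Lh e hl r hr : ℝ)) / R)
  have h2 : 0 < if walker hl r hr then W else (1 : ℝ) := by split_ifs <;> linarith
  have h3 : 0 < if pend e hl r hr then U else (1 : ℝ) := by split_ifs <;> linarith
  exact mul_pos (mul_pos h1 h2) h3

theorem phC_pos (R : ℕ) {W U : ℝ} (hW : 1 ≤ W) (hU : 1 ≤ U) (e : ℕ) :
    ∀ (B : List ℕ) (hl hr : ℕ), 0 < phC R W U e hl B hr
  | [], _, _ => one_pos
  | _ :: B, _, _ => mul_pos (wt_pos R hW hU _ _ _ _) (phC_pos R hW hU e B _ _)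

theorem ysr_aux (h1 : T_TOP) {R : ℕ} {W U : ℝ} (hW : 1 ≤ W) (hU : 1 ≤ U) {e c : ℕ} (he : e < 2)
    (hc : c % 2 = e) : ∀ (B : List ℕ) (h hl0 hl : ℕ), h ≤ c → top 0 B = c + 1 → c + 3 ≤ hl0 →
      c + 3 ≤ hl → phC R W U e hl (up e h B) 0 *
        Real.exp (2 * ((B.takeWhile (fun r => decide (r < c))).length + 1 : ℝ) / R) ≤
        U * phC R W U e hl0 B 0
  | [], _, _, _, _, h3, _, _ => absurd h3 (by show ¬ 0 = c + 1; omega)
  | r :: B, h, hl0, hl, h2, h3, h4, h5 => by
    rw [top_cons h1] at h3
    have hX : ∀ a b : ℝ, Real.exp ((a - (b + 2)) / R) * Real.exp (2 / R) =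
        Real.exp ((a - b) / R) := by
      intro a b
      rw [← Real.exp_add, ← add_div]
      congr 2
      ring
    rcases Nat.lt_or_ge r c with hr | hr
    · have hB : top 0 B = c + 1 := by omega
      obtain ⟨r', h', hup, hr', hh'⟩ : ∃ r' h', up e h (r :: B) = r' :: up e h' B ∧ r' ≤ c ∧
          h' ≤ c := by
        by_cases hv : h ≤ r
        · by_cases hp : r % 2 = e
          · exact ⟨r + 1, r + 1, by
              show (if h ≤ r then _ else _) = _
              rw [if_pos hv, if_pos hp], by omega, by omega⟩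
          · exact ⟨r, r + 1, by
              show (if h ≤ r then _ else _) = _
              rw [if_pos hv, if_neg hp], by omega, by omega⟩
        · exact ⟨r, h, by
              show (if h ≤ r then _ else _) = _
              rw [if_neg hv], by omega, by omega⟩
      have hB' : top 0 (up e h' B) = c + 2 := by
        rw [h1.2.2.2, if_pos ⟨by omega, by rw [hB]; simpa using hc⟩, hB]
      have ih := ysr_aux h1 (R := R) hW hU he hc B h' (max hl0 (r + 1)) (max hl (r' + 1)) hh' hB (by omega)
        (by omega)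
      rw [hup]
      have e1 : ((r :: B).takeWhile (fun r => decide (r < c))).length =
          (B.takeWhile (fun r => decide (r < c))).length + 1 := by
        rw [List.takeWhile_cons_of_pos (by simpa using hr), List.length_cons]
      rw [e1]
      show wt R W U e hl r' (max (top 0 (up e h' B)) 0) *
        phC R W U e (max hl (r' + 1)) (up e h' B) 0 * _ ≤
        U * (wt R W U e hl0 r (max (top 0 B) 0) * phC R W U e (max hl0 (r + 1)) B 0)
      rw [hB', hB, wt_left hc h5 (by omega) (by omega), wt_left hc h4 (by omega) (by omega)]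
      have c1 : cl e (max (max (c + 2) 0) (r' + 1) - 1) = c + 2 := by
        unfold cl
        rw [if_neg (by omega)]
        omega
      have c2 : cl e (max (max (c + 1) 0) (r + 1) - 1) = c := by
        unfold cl
        rw [if_pos (by omega)]
        omega
      rw [c1, c2, if_neg (show ¬ max (c + 2) 0 ≤ r' + 1 by omega),
        if_neg (show ¬ (r' % 2 = 1 - e ∧ max (c + 2) 0 ≤ r') by omega),
        if_neg (show ¬ (r % 2 = 1 - e ∧ max (c + 1) 0 ≤ r) by omega), mul_one, mul_one, mul_one]
      have hw : 1 ≤ if max (c + 1) 0 ≤ r + 1 then W else (1 : ℝ) := by split_ifs <;> linarith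
      set P := phC R W U e (max hl (r' + 1)) (up e h' B) 0 with hP
      set Q := phC R W U e (max hl0 (r + 1)) B 0 with hQ
      have hQ0 : 0 < Q := phC_pos R hW hU e _ _ _
      set M : ℝ := ((B.takeWhile (fun r => decide (r < c))).length : ℝ) with hM
      have e2 : Real.exp (2 * (((((B.takeWhile (fun r => decide (r < c))).length + 1 : ℕ) : ℝ)) +
          1) / R) = Real.exp (2 / R) * Real.exp (2 * (M + 1) / R) := by
        rw [← Real.exp_add, ← add_div]
        congr 2
        push_cast
        ring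
      rw [e2]
      have e3 := hX ((R : ℝ) + 1) c
      have e4 : ((c + 2 : ℕ) : ℝ) = (c : ℝ) + 2 := by push_cast; ring
      rw [e4]
      calc Real.exp (((R : ℝ) + 1 - (c + 2)) / R) * P *
            (Real.exp (2 / R) * Real.exp (2 * (M + 1) / R))
          = Real.exp (((R : ℝ) + 1 - (c + 2)) / R) * Real.exp (2 / R) *
            (P * Real.exp (2 * (M + 1) / R)) := by ring
        _ = Real.exp (((R : ℝ) + 1 - c) / R) * (P * Real.exp (2 * (M + 1) / R)) := by rw [e3]
        _ ≤ Real.exp (((R : ℝ) + 1 - c) / R) * (U * Q) :=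
            mul_le_mul_of_nonneg_left ih (Real.exp_pos _).le
        _ = Real.exp (((R : ℝ) + 1 - c) / R) * 1 * (U * Q) := by ring
        _ ≤ Real.exp (((R : ℝ) + 1 - c) / R) * (if max (c + 1) 0 ≤ r + 1 then W else (1 : ℝ)) *
            (U * Q) := by
            refine mul_le_mul_of_nonneg_right (mul_le_mul_of_nonneg_left hw (Real.exp_pos _).le) ?_
            exact mul_nonneg (by linarith) hQ0.le
        _ = U * (Real.exp (((R : ℝ) + 1 - c) / R) * (if max (c + 1) 0 ≤ r + 1 then W else (1 : ℝ)) *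
            Q) := by ring
    · have hrc : r = c := by omega
      subst hrc
      have hB : top 0 B ≤ r + 1 := by omega
      have hup : up e h (r :: B) = (r + 1) :: B := by
        show (if h ≤ r then _ else _) = _
        rw [if_pos h2, if_pos hc, up_high h1 e B (r + 1) hB]
      rw [hup]
      have e1 : ((r :: B).takeWhile (fun r' => decide (r' < r))).length = 0 := by
        rw [List.takeWhile_cons_of_neg (by simp), List.length_nil]
      rw [e1]
      show wt R W U e hl (r + 1) (max (top 0 B) 0) *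
        phC R W U e (max hl (r + 1 + 1)) B 0 * _ ≤
        U * (wt R W U e hl0 r (max (top 0 B) 0) * phC R W U e (max hl0 (r + 1)) B 0)
      rw [phC_left h1 hc B (max hl0 (r + 1)) (max hl (r + 1 + 1)) hB (by omega) (by omega),
        wt_left hc h5 (by omega) (by omega), wt_left hc h4 (by omega) (by omega)]
      have c1 : cl e (max (max (top 0 B) 0) (r + 1 + 1) - 1) = r + 2 := by
        unfold cl
        rw [if_neg (by omega)]
        omega
      have c2 : cl e (max (max (top 0 B) 0) (r + 1) - 1) = r := by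
        unfold cl
        rw [if_pos (by omega)]
        omega
      rw [c1, c2, if_pos (show max (top 0 B) 0 ≤ r + 1 + 1 by omega),
        if_pos (show max (top 0 B) 0 ≤ r + 1 by omega),
        if_neg (show ¬ (r % 2 = 1 - e ∧ max (top 0 B) 0 ≤ r) by omega), mul_one]
      have hu : (if (r + 1) % 2 = 1 - e ∧ max (top 0 B) 0 ≤ r + 1 then U else (1 : ℝ)) ≤ U := by
        split_ifs <;> linarith
      set Q := phC R W U e (max hl0 (r + 1)) B 0 with hQ
      have hQ0 : 0 < Q := phC_pos R hW hU e _ _ _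
      have e3 := hX ((R : ℝ) + 1) r
      have e4 : ((r + 2 : ℕ) : ℝ) = (r : ℝ) + 2 := by push_cast; ring
      have e5 : (2 * (((0 : ℕ) : ℝ) + 1) / R) = (2 : ℝ) / R := by norm_num
      rw [e4, e5]
      calc Real.exp (((R : ℝ) + 1 - (r + 2)) / R) * W *
            (if (r + 1) % 2 = 1 - e ∧ max (top 0 B) 0 ≤ r + 1 then U else (1 : ℝ)) * Q *
            Real.exp (2 / R)
          ≤ Real.exp (((R : ℝ) + 1 - (r + 2)) / R) * W * U * Q * Real.exp (2 / R) := by
            refine mul_le_mul_of_nonneg_right (mul_le_mul_of_nonneg_right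
              (mul_le_mul_of_nonneg_left hu ?_) hQ0.le) (Real.exp_pos _).le
            exact mul_nonneg (Real.exp_pos _).le (by linarith)
        _ = (Real.exp (((R : ℝ) + 1 - (r + 2)) / R) * Real.exp (2 / R)) * W * U * Q := by ring
        _ = U * (Real.exp (((R : ℝ) + 1 - r) / R) * W * Q) := by rw [e3]; ring

theorem pf_YSR (h1 : T_TOP) : T_YSR := by
  intro R W U e tX hl Y _ hW hU he h2 h3 h4 h5
  obtain ⟨c, hc⟩ : ∃ c, top 0 Y = c + 1 := ⟨top 0 Y - 1, by omega⟩
  rw [hc] at h4 h5 ⊢
  exact ysr_aux h1 hW hU he h4 Y 0 tX hl (Nat.zero_le _) hc (by omega) (by omega)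

end Pool.Agent.H15.STK
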